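import Pool.Agent.Helper14.PF.Defs

/-!
# PF-Block: the auxiliary polynomial does not vanish

PROOF.  `coeff (blk p R) (p i + u) = coeff (R i) u` for `u < p`, as `natDegree (R j) < K < p`.  So if `R ≠ 0` then
`blk p R ≠ 0` and `natDegree (blk p R) % p < K` (its leading coefficient is a coefficient of some `R i`).
If `blk p R + g * blk p S = 0` with `g = f ^ ((p - 1) / 2)` then `f (blk R) ^ 2 = f ^ p (blk S) ^ 2`; if `S = 0` then `R = 0`,
if `S ≠ 0` then the degrees give `d + 2 a = p d + 2 b` with `a % p < K`, `b % p < K`, `d` odd, `d + 2 K < p`: impossible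
(`d + 2 (a % p) - 2 (b % p)` is odd, divisible by `p` and of absolute value less than `p`).
-/

set_option autoImplicit false

namespace Pool.Agent.Helper14.PF

open Polynomial Finset

theorem coeff_blk {F : Type*} [Field F] {J p : ℕ} (R : Fin J → F[X]) (n : ℕ) :
    (blk p R).coeff n = ∑ j : Fin J, if p * (j : ℕ) ≤ n then (R j).coeff (n - p * (j : ℕ)) else 0 := by
  unfold blk
  rw [finsetSum_coeff]
  refine Finset.sum_congr rfl fun j _ => ?_
  rw [coeff_mul_X_pow']

theorem natDegree_blk {F : Type*} [Field F] {J K p : ℕ} (hK : K ≤ p) {R : Fin J → F[X]}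
    (hR : ∀ j, (R j).natDegree < K) (hne : ∃ j, R j ≠ 0) :
    blk p R ≠ 0 ∧ (blk p R).natDegree % p < K := by
  have h0 : blk p R ≠ 0 := by
    obtain ⟨i, hi⟩ := hne
    intro h
    have h1 := coeff_blk (p := p) R (p * (i : ℕ) + (R i).natDegree)
    rw [h, coeff_zero, Finset.sum_eq_single i] at h1
    · rw [if_pos (Nat.le_add_right _ _), Nat.add_sub_cancel_left] at h1
      exact hi (leadingCoeff_eq_zero.1 h1.symm)
    · intro j _ hji
      split_ifs with hle
      · apply coeff_eq_zero_of_natDegree_lt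
        have h2 := hR i
        have h3 := hR j
        rcases lt_or_gt_of_ne (fun h => hji (Fin.ext h) : (j : ℕ) ≠ (i : ℕ)) with hlt | hlt
        · have h4 : p * ((j : ℕ) + 1) ≤ p * (i : ℕ) := Nat.mul_le_mul_left _ hlt
          rw [mul_add, mul_one] at h4
          omega
        · exfalso
          have h4 : p * ((i : ℕ) + 1) ≤ p * (j : ℕ) := Nat.mul_le_mul_left _ hlt
          rw [mul_add, mul_one] at h4
          omega
      · rfl
    · intro hi'
      exact absurd (Finset.mem_univ _) hi'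
  refine ⟨h0, ?_⟩
  have h1 : (blk p R).coeff (blk p R).natDegree ≠ 0 := by
    rw [coeff_natDegree]
    exact leadingCoeff_ne_zero.2 h0
  rw [coeff_blk] at h1
  obtain ⟨j, -, hj⟩ := Finset.exists_ne_zero_of_sum_ne_zero h1
  split_ifs at hj with hle
  · have h2 := le_natDegree_of_ne_zero hj
    have h3 := hR j
    have h4 : (blk p R).natDegree = ((blk p R).natDegree - p * (j : ℕ)) + p * (j : ℕ) := by omega
    rw [h4, Nat.add_mul_mod_self_left, Nat.mod_eq_of_lt (by omega)]
    omega
  · exact absurd rfl hj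

theorem blk_ne {p : ℕ} [Fact p.Prime] {f : (ZMod p)[X]} (hd : Odd f.natDegree) {J K : ℕ}
    (hp : f.natDegree + 2 * K < p) {R S : Fin J → (ZMod p)[X]} (hR : ∀ j, (R j).natDegree < K)
    (hS : ∀ j, (S j).natDegree < K) (hne : (∃ j, R j ≠ 0) ∨ ∃ j, S j ≠ 0) :
    blk p R + f ^ ((p - 1) / 2) * blk p S ≠ 0 := by
  intro h
  have hK : K ≤ p := by omega
  have hf : f ≠ 0 := by
    rintro rfl
    rw [natDegree_zero] at hd
    exact absurd hd (by decide)
  have hzero : ∀ T : Fin J → (ZMod p)[X], (∀ j, T j = 0) → blk p T = 0 := by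
    intro T hT
    unfold blk
    exact Finset.sum_eq_zero fun j _ => by rw [hT j, zero_mul]
  have hS0 : ∃ j, S j ≠ 0 := by
    by_contra hcon
    push Not at hcon
    rcases hne with hne | ⟨j, hj⟩
    · rw [hzero S hcon, mul_zero, add_zero] at h
      exact (natDegree_blk hK hR hne).1 h
    · exact hj (hcon j)
  obtain ⟨hB, hb⟩ := natDegree_blk hK hS hS0
  have hR0 : ∃ j, R j ≠ 0 := by
    by_contra hcon
    push Not at hcon
    rw [hzero R hcon, zero_add] at h
    rcases mul_eq_zero.1 h with h1 | h1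
    · exact pow_ne_zero _ hf h1
    · exact hB h1
  obtain ⟨-, ha⟩ := natDegree_blk hK hR hR0
  have hdeg : (blk p R).natDegree = (p - 1) / 2 * f.natDegree + (blk p S).natDegree := by
    rw [eq_neg_of_add_eq_zero_left h, natDegree_neg, natDegree_mul (pow_ne_zero _ hf) hB,
      natDegree_pow]
  have hK1 : 1 ≤ K := by
    obtain ⟨j, -⟩ := hS0
    have := hS j
    omega
  obtain ⟨c, hc⟩ := hd
  have hodd : p % 2 = 1 := by
    rcases (Fact.out : p.Prime).eq_two_or_odd with h2 | h2
    · omega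
    · exact h2
  obtain ⟨m, hm⟩ : ∃ m, p = 2 * m + 1 := ⟨p / 2, by omega⟩
  have hm2 : (p - 1) / 2 = m := by omega
  have e1 := Nat.div_add_mod (blk p R).natDegree p
  have e2 := Nat.div_add_mod (blk p S).natDegree p
  rw [hm2] at hdeg
  set a := (blk p R).natDegree
  set b := (blk p S).natDegree
  set d := f.natDegree
  have key : (p : ℤ) ∣ (d : ℤ) + 2 * ((a % p : ℕ) : ℤ) - 2 * ((b % p : ℕ) : ℤ) := by
    refine ⟨(d : ℤ) + 2 * ((b / p : ℕ) : ℤ) - 2 * ((a / p : ℕ) : ℤ), ?_⟩
    have e1' : (p : ℤ) * ((a / p : ℕ) : ℤ) + ((a % p : ℕ) : ℤ) = (a : ℤ) := by exact_mod_cast e1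
    have e2' : (p : ℤ) * ((b / p : ℕ) : ℤ) + ((b % p : ℕ) : ℤ) = (b : ℤ) := by exact_mod_cast e2
    have e3' : (a : ℤ) = m * d + b := by exact_mod_cast hdeg
    have e4' : (p : ℤ) = 2 * m + 1 := by exact_mod_cast hm
    have e5 : (d : ℤ) + 2 * (a : ℤ) = p * d + 2 * b := by
      rw [e3', e4']
      ring
    linear_combination e5 + 2 * e1' - 2 * e2'
  have h0 := Int.eq_zero_of_abs_lt_dvd key (by
    rw [abs_lt]
    constructor <;> omega)
  omega

end Pool.Agent.Helper14.PF
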