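import Pool.Agent.Helper14.PF.Lin
import Pool.Agent.Helper14.PF.Block

/-!
# PF-Count: Stepanov's bound

PROOF.  `p` large, `l = 2 d`, `J = d + 1`, `K = d (2 d ^ 2 + d + 1) + 1`: then `l (K + l d + J) < 2 J K`.  Take `R`, `S` from `exists_sol`
with `c = l`, `c' = l - 1/2`; `g = f ^ ((p - 1) / 2)`, `h = f ^ l (blk p R + g * blk p S) ≠ 0` (`blk_ne`).  For `k < l`, by
`iterate_deriv` and `deriv_aux`, `derivative^[k] h = f ^ (l - k) ∑ j, (it f c k (R j) + it f c' k (S j) g) X ^ (p j)`, which at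
a point `x` with `g (x) = 1` is `f (x) ^ (l - k) * (∑ j, (it f c k (R j) + it f c' k (S j)) X ^ j) (x) = 0` (`x ^ p = x`).
So `x` is a root of `h` of multiplicity at least `l`
(`Polynomial.lt_rootMultiplicity_of_isRoot_iterate_derivative_of_mem_nonZeroDivisors`), and
`l #{x | f (x) ^ ((p - 1) / 2) = 1} ≤ natDegree h ≤ l d + d (p - 1) / 2 + K + p (J - 1)`.
With the at most `d` zeros of `f`: `#{t | IsSquare (f t)} ≤ 3/4 p + C` (`ZMod.euler_criterion`).
-/

set_option autoImplicit false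

namespace Pool.Agent.Helper14.PF

open Polynomial Finset

private theorem Count_blk_deg {p : ℕ} [Fact p.Prime] {J K : ℕ} {R : Fin J → (ZMod p)[X]}
    (hR : ∀ j, (R j).natDegree < K) : (blk p R).natDegree ≤ K + p * (J - 1) := by
  unfold blk
  apply natDegree_sum_le_of_forall_le
  intro j _
  refine natDegree_mul_le.trans ?_
  have h1 := hR j
  have h2 : ((X : (ZMod p)[X]) ^ (p * (j : ℕ))).natDegree ≤ p * (j : ℕ) := natDegree_X_pow_le _
  have h3 : (j : ℕ) ≤ J - 1 := by
    have := j.2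
    omega
  have h4 : p * (j : ℕ) ≤ p * (J - 1) := Nat.mul_le_mul_left _ h3
  omega

theorem stepanov_aux {p : ℕ} [Fact p.Prime] {f : (ZMod p)[X]} {d l J K : ℕ} (hd : Odd d)
    (hf : f.natDegree = d) (hl : l < p) (hl0 : 0 < l) (hp : d + 2 * K < p)
    (h : l * (K + l * d + J) < 2 * (J * K)) :
    l * #{x : ZMod p | (f.eval x) ^ ((p - 1) / 2) = 1} ≤
      l * d + d * ((p - 1) / 2) + K + p * (J - 1) := by
  classical
  have hpp : p.Prime := Fact.out
  have hK : 0 < K := by
    rcases Nat.eq_zero_or_pos K with h0 | h0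
    · subst h0
      simp at h
    · exact h0
  have hd0 : 0 < d := hd.pos
  have hp2 : p ≠ 2 := by omega
  have hf0 : f ≠ 0 := by
    intro h0
    rw [h0, natDegree_zero] at hf
    omega
  obtain ⟨R, S, hR, hS, hne, hsol⟩ := exists_sol (f := f) (d := d) hf.le ((l : ZMod p) + 0)
    ((l : ZMod p) + (-1 / 2)) h
  have hB := blk_ne (f := f) (by rw [hf]; exact hd) (by rw [hf]; exact hp) hR hS hne
  obtain ⟨H, hHdef⟩ : ∃ H : (ZMod p)[X], H = f ^ l * (blk p R + f ^ ((p - 1) / 2) * blk p S) :=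
    ⟨_, rfl⟩
  have hH : H ≠ 0 := by
    rw [hHdef]
    exact mul_ne_zero (pow_ne_zero _ hf0) hB
  -- the derivatives
  have hsum : H = ∑ j : Fin J, (f ^ l * R j * X ^ (p * (j : ℕ)) +
      f ^ l * S j * (f ^ ((p - 1) / 2) * X ^ (p * (j : ℕ)))) := by
    rw [hHdef, Finset.sum_add_distrib, mul_add]
    have a1 : f ^ l * blk p R = ∑ j : Fin J, f ^ l * R j * X ^ (p * (j : ℕ)) := by
      rw [blk, Finset.mul_sum]
      exact Finset.sum_congr rfl (fun j _ => by ring)
    have a2 : f ^ l * (f ^ ((p - 1) / 2) * blk p S) =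
        ∑ j : Fin J, f ^ l * S j * (f ^ ((p - 1) / 2) * X ^ (p * (j : ℕ))) := by
      rw [blk, Finset.mul_sum, Finset.mul_sum]
      exact Finset.sum_congr rfl (fun j _ => by ring)
    rw [a1, a2]
  have hder : ∀ k ≤ l, derivative^[k] H = ∑ j : Fin J,
      (f ^ (l - k) * it f ((l : ZMod p) + 0) k (R j) * X ^ (p * (j : ℕ)) +
        f ^ (l - k) * it f ((l : ZMod p) + (-1 / 2)) k (S j) *
          (f ^ ((p - 1) / 2) * X ^ (p * (j : ℕ)))) := by
    intro k hk
    rw [hsum, iterate_derivative_sum]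
    apply Finset.sum_congr rfl
    intro j _
    rw [iterate_map_add, iterate_deriv (deriv_aux hp2 f j).1 l (R j) k hk,
      iterate_deriv (deriv_aux hp2 f j).2 l (S j) k hk]
  have hroot : ∀ x : ZMod p, (f.eval x) ^ ((p - 1) / 2) = 1 → ∀ k < l,
      (derivative^[k] H).IsRoot x := by
    intro x hx k hk
    have h1 := congrArg (eval x) (hsol k hk)
    rw [eval_finsetSum, eval_zero] at h1
    rw [IsRoot, hder k hk.le, eval_finsetSum]
    have h2 : ∀ j : Fin J, eval x (f ^ (l - k) * it f ((l : ZMod p) + 0) k (R j) *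
        X ^ (p * (j : ℕ)) + f ^ (l - k) * it f ((l : ZMod p) + (-1 / 2)) k (S j) *
          (f ^ ((p - 1) / 2) * X ^ (p * (j : ℕ)))) =
        (eval x f) ^ (l - k) * eval x ((it f ((l : ZMod p) + 0) k (R j) +
          it f ((l : ZMod p) + (-1 / 2)) k (S j)) * X ^ (j : ℕ)) := by
      intro j
      simp only [eval_add, eval_mul, eval_pow, eval_X]
      rw [pow_mul, ZMod.pow_card, hx]
      ring
    simp only [h2]
    rw [← Finset.mul_sum, h1, mul_zero]
  have hmult : ∀ x : ZMod p, (f.eval x) ^ ((p - 1) / 2) = 1 → l ≤ H.rootMultiplicity x := by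
    intro x hx
    have h1 := lt_rootMultiplicity_of_isRoot_iterate_derivative_of_mem_nonZeroDivisors
      (n := l - 1) hH (fun m hm => hroot x hx m (by omega)) (by
        rw [mem_nonZeroDivisors_iff_ne_zero, Ne, ZMod.natCast_eq_zero_iff, hpp.dvd_factorial]
        omega)
    omega
  -- counting the roots
  have hcount : l * #{x : ZMod p | (f.eval x) ^ ((p - 1) / 2) = 1} ≤ H.natDegree := by
    have h1 : ({x : ZMod p | (f.eval x) ^ ((p - 1) / 2) = 1} : Finset (ZMod p)) ⊆
        H.roots.toFinset := by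
      intro x hx
      rw [Finset.mem_filter] at hx
      rw [Multiset.mem_toFinset, mem_roots hH]
      exact (rootMultiplicity_pos hH).1 (lt_of_lt_of_le hl0 (hmult x hx.2))
    calc l * #{x : ZMod p | (f.eval x) ^ ((p - 1) / 2) = 1}
        = ∑ _x ∈ ({x : ZMod p | (f.eval x) ^ ((p - 1) / 2) = 1} : Finset (ZMod p)), l := by
          rw [Finset.sum_const, smul_eq_mul, mul_comm]
      _ ≤ ∑ x ∈ ({x : ZMod p | (f.eval x) ^ ((p - 1) / 2) = 1} : Finset (ZMod p)),
          H.roots.count x := by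
          apply Finset.sum_le_sum
          intro x hx
          rw [Finset.mem_filter] at hx
          rw [count_roots]
          exact hmult x hx.2
      _ ≤ ∑ x ∈ H.roots.toFinset, H.roots.count x :=
          Finset.sum_le_sum_of_subset_of_nonneg h1 (fun _ _ _ => Nat.zero_le _)
      _ = H.roots.card := Multiset.toFinset_sum_count_eq _
      _ ≤ H.natDegree := card_roots' H
  -- the degree
  have hdeg : H.natDegree ≤ l * d + (d * ((p - 1) / 2) + (K + p * (J - 1))) := by
    rw [hHdef]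
    refine natDegree_mul_le.trans (add_le_add ?_ ?_)
    · exact (natDegree_pow_le).trans (by rw [hf])
    · refine (natDegree_add_le _ _).trans (max_le ?_ ?_)
      · exact (Count_blk_deg hR).trans (Nat.le_add_left _ _)
      · refine natDegree_mul_le.trans (add_le_add ?_ (Count_blk_deg hS))
        refine (natDegree_pow_le).trans ?_
        rw [hf, mul_comm]
  omega

/-- **Stepanov's bound**, in a weak form: a polynomial of odd degree takes many values that are not
squares. -/
theorem stepanov {d : ℕ} (hd : Odd d) : ∃ r₀ : ℕ, ∀ (r : ℕ) [Fact r.Prime], r₀ ≤ r →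
    ∀ f : (ZMod r)[X], f.natDegree = d →
      (#{t : ZMod r | IsSquare (f.eval t)} : ℝ) ≤ 7 / 8 * r := by
  obtain ⟨K, hK⟩ : ∃ K : ℕ, K = d * (2 * d ^ 2 + d + 1) + 1 := ⟨_, rfl⟩
  refine ⟨8 * (2 * d + K), ?_⟩
  intro r _ hr f hf
  classical
  have hrp : r.Prime := Fact.out
  have hd0 : 0 < d := hd.pos
  have hf0 : f ≠ 0 := by
    intro h0
    rw [h0, natDegree_zero] at hf
    omega
  have hmain := stepanov_aux (p := r) (f := f) (d := d) (l := 2 * d) (J := d + 1) (K := K) hd hf
    (by omega) (by omega) (by omega) (by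
      rw [hK]
      ring_nf
      linarith)
  have hr2 : r ≠ 2 := by omega
  have hodd : (r - 1) / 2 = r / 2 := by
    have := hrp.eq_two_or_odd
    omega
  rw [hodd] at hmain
  -- the zeros
  have hz : #{t : ZMod r | f.eval t = 0} ≤ d := by
    rw [← hf]
    refine le_trans ?_ (card_roots' f)
    refine le_trans (Finset.card_le_card ?_) (Multiset.toFinset_card_le _)
    intro t ht
    rw [Finset.mem_filter] at ht
    rw [Multiset.mem_toFinset, mem_roots hf0]
    exact ht.2
  have hsub : ({t : ZMod r | IsSquare (f.eval t)} : Finset (ZMod r)) ⊆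
      ({t : ZMod r | f.eval t = 0} : Finset (ZMod r)) ∪
        ({t : ZMod r | (f.eval t) ^ (r / 2) = 1} : Finset (ZMod r)) := by
    intro t ht
    rw [Finset.mem_filter] at ht
    rw [Finset.mem_union, Finset.mem_filter, Finset.mem_filter]
    by_cases h0 : f.eval t = 0
    · exact Or.inl ⟨Finset.mem_univ _, h0⟩
    · exact Or.inr ⟨Finset.mem_univ _, (ZMod.euler_criterion r h0).1 ht.2⟩
  have hc := (Finset.card_le_card hsub).trans (Finset.card_union_le _ _)
  have h1 : 2 * d * #{t : ZMod r | (f.eval t) ^ (r / 2) = 1} ≤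
      2 * d * d + d * (r / 2) + K + r * d := by
    simpa using hmain
  have h2 : (2 * d : ℝ) * (#{t : ZMod r | (f.eval t) ^ (r / 2) = 1} : ℝ) ≤
      2 * d * d + d * (r / 2) + K + r * d := by
    have h3 : ((2 * d * #{t : ZMod r | (f.eval t) ^ (r / 2) = 1} : ℕ) : ℝ) ≤
        ((2 * d * d + d * (r / 2) + K + r * d : ℕ) : ℝ) := by exact_mod_cast h1
    push_cast at h3
    have h4 : ((r / 2 : ℕ) : ℝ) ≤ (r : ℝ) / 2 := Nat.cast_div_le
    have h5 : (d : ℝ) * ((r / 2 : ℕ) : ℝ) ≤ (d : ℝ) * ((r : ℝ) / 2) :=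
      mul_le_mul_of_nonneg_left h4 (Nat.cast_nonneg _)
    linarith
  have hdR : (1 : ℝ) ≤ (d : ℝ) := by exact_mod_cast hd0
  have h6 : (#{t : ZMod r | (f.eval t) ^ (r / 2) = 1} : ℝ) ≤ d + 3 / 4 * r + K := by
    have hKR : (0 : ℝ) ≤ (K : ℝ) := Nat.cast_nonneg _
    have h7 : (2 * d : ℝ) * (#{t : ZMod r | (f.eval t) ^ (r / 2) = 1} : ℝ) ≤
        (2 * d : ℝ) * (d + 3 / 4 * r + K) := by
      have e1 : (K : ℝ) ≤ 2 * d * K := le_mul_of_one_le_left hKR (by linarith)
      have e2 : (2 * d : ℝ) * (d + 3 / 4 * r + K) =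
          2 * d * d + d * (r / 2) + 2 * d * K + r * d := by ring
      linarith
    exact le_of_mul_le_mul_left h7 (by linarith)
  have h8 : (#{t : ZMod r | IsSquare (f.eval t)} : ℝ) ≤
      (#{t : ZMod r | f.eval t = 0} : ℝ) + (#{t : ZMod r | (f.eval t) ^ (r / 2) = 1} : ℝ) := by
    exact_mod_cast hc
  have h9 : (#{t : ZMod r | f.eval t = 0} : ℝ) ≤ d := by exact_mod_cast hz
  have h10 : (8 * (2 * d + K) : ℝ) ≤ r := by exact_mod_cast hr
  linarith

end Pool.Agent.Helper14.PF
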