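import Mathlib

/-!
# PF: values of a polynomial of odd degree that are squares (Stepanov), definitions
-/

set_option autoImplicit false

namespace Pool.Agent.Helper14.PF

open Polynomial Finset

variable {F : Type*} [Field F]

/-- The operator `r ↦ c f' r + f r'`. -/
noncomputable def Lop (f : F[X]) (c : F) : F[X] →ₗ[F] F[X] :=
  LinearMap.mulLeft F (C c * derivative f) + LinearMap.mulLeft F f ∘ₗ derivative

theorem Lop_apply (f : F[X]) (c : F) (r : F[X]) :
    Lop f c r = C c * derivative f * r + f * derivative r := by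
  simp [Lop, mul_assoc]

/-- The operators in the derivatives of `f ^ ℓ r G`, where `f G' = e f' G` and `c = ℓ + e`. -/
noncomputable def it (f : F[X]) (c : F) : ℕ → (F[X] →ₗ[F] F[X])
  | 0 => LinearMap.id
  | k + 1 => Lop f (c - k) ∘ₗ it f c k

theorem it_zero (f : F[X]) (c : F) (r : F[X]) : it f c 0 r = r := rfl

theorem it_succ (f : F[X]) (c : F) (k : ℕ) (r : F[X]) :
    it f c (k + 1) r = Lop f (c - k) (it f c k r) := rfl

/-- `∑ j, R j * X ^ (p j)`. -/
noncomputable def blk {J : ℕ} (p : ℕ) (R : Fin J → F[X]) : F[X] := ∑ j, R j * X ^ (p * (j : ℕ))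

end Pool.Agent.Helper14.PF
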