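import Pool.Agent.Helper14.PF.Defs

/-!
# PF-Deriv: the derivatives

PROOF of `iterate_deriv`: induction on `k`: the derivative of `f ^ (ℓ - k) ρ G`, `k < ℓ`, is
`f ^ (ℓ - k - 1) ((ℓ - k) f' ρ + f ρ' + e f' ρ) G = f ^ (ℓ - k - 1) (Lop f (ℓ + e - k) ρ) G`.
-/

set_option autoImplicit false

namespace Pool.Agent.Helper14.PF

open Polynomial Finset

section
variable {F : Type*} [Field F]

theorem iterate_deriv {f G : F[X]} {e : F} (hG : f * derivative G = C e * derivative f * G)
    (l : ℕ) (r : F[X]) : ∀ k ≤ l,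
      derivative^[k] (f ^ l * r * G) = f ^ (l - k) * it f (l + e) k r * G := by
  intro k
  induction k with
  | zero =>
    intro _
    rw [Function.iterate_zero, id, Nat.sub_zero, it_zero]
  | succ k ih =>
    intro hk
    obtain ⟨m, hm⟩ : ∃ m, l = m + 1 + k := ⟨l - (k + 1), by omega⟩
    rw [Function.iterate_succ_apply', ih (by omega), it_succ, Lop_apply]
    have h1 : l - k = m + 1 := by omega
    have h2 : l - (k + 1) = m := by omega
    rw [h1, h2]
    obtain ⟨ρ, hρ⟩ : ∃ ρ, ρ = it f (l + e) k r := ⟨_, rfl⟩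
    rw [← hρ]
    have h3 : ((l : F) + e - (k : F)) = (m : F) + 1 + e := by
      rw [hm]
      push_cast
      ring
    rw [h3, derivative_mul, derivative_mul, derivative_pow, Nat.add_sub_cancel]
    have h4 : f ^ (m + 1) * ρ * derivative G = f ^ m * ρ * (f * derivative G) := by ring
    rw [h4, hG]
    have h5 : (C ((m : F) + 1 + e) : F[X]) = C ((m + 1 : ℕ) : F) + C e := by
      rw [← C_add]
      push_cast
      rfl
    rw [h5]
    ring

theorem natDegree_it {f : F[X]} {d : ℕ} (hf : f.natDegree ≤ d) (c : F) (k : ℕ) {r : F[X]} {K : ℕ}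
    (hr : r.natDegree ≤ K) : (it f c k r).natDegree ≤ K + k * d := by
  induction k with
  | zero =>
    rw [it_zero]
    omega
  | succ k ih =>
    rw [it_succ, Lop_apply]
    obtain ⟨ρ, hρ⟩ : ∃ ρ, ρ = it f c k r := ⟨_, rfl⟩
    rw [← hρ] at ih ⊢
    have hfd : (derivative f).natDegree ≤ d := (natDegree_derivative_le f).trans (by omega)
    have hρd : (derivative ρ).natDegree ≤ K + k * d := (natDegree_derivative_le ρ).trans (by omega)
    have e1 : (k + 1) * d = k * d + d := by ring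
    refine (natDegree_add_le _ _).trans (max_le ?_ ?_)
    · refine (natDegree_mul_le).trans ?_
      have h1 : (C (c - (k : F)) * derivative f).natDegree ≤ d :=
        (natDegree_C_mul_le _ _).trans hfd
      omega
    · refine (natDegree_mul_le).trans ?_
      omega

end

variable {p : ℕ} [Fact p.Prime]

/-- `f (f ^ ((p - 1) / 2))' = - 1/2 f' f ^ ((p - 1) / 2)`. -/
theorem deriv_half (hp : p ≠ 2) (f : (ZMod p)[X]) :
    f * derivative (f ^ ((p - 1) / 2)) = C (-1 / 2) * derivative f * f ^ ((p - 1) / 2) := by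
  have hprime : p.Prime := Fact.out
  have h2 : 2 ≤ p := hprime.two_le
  have hodd : p % 2 = 1 := by
    rcases hprime.eq_two_or_odd with h | h
    · exact absurd h hp
    · exact h
  obtain ⟨n, hn⟩ : ∃ n, (p - 1) / 2 = n + 1 := ⟨(p - 1) / 2 - 1, by omega⟩
  have hpn : p = 2 * (n + 1) + 1 := by omega
  rw [hn, derivative_pow, Nat.add_sub_cancel]
  have h3 : (2 : ZMod p) ≠ 0 := by
    intro h
    have h4 : ((2 : ℕ) : ZMod p) = 0 := by exact_mod_cast h
    rw [ZMod.natCast_eq_zero_iff] at h4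
    exact absurd (Nat.le_of_dvd (by norm_num) h4) (by omega)
  have h5 : ((n + 1 : ℕ) : ZMod p) = -1 / 2 := by
    rw [eq_div_iff h3]
    have h6 : ((2 * (n + 1) + 1 : ℕ) : ZMod p) = 0 := by
      rw [← hpn]
      exact ZMod.natCast_self p
    push_cast at h6 ⊢
    linear_combination h6
  rw [h5]
  ring

theorem deriv_Xp (j : ℕ) : derivative ((X : (ZMod p)[X]) ^ (p * j)) = 0 := by
  rw [derivative_X_pow]
  have h : ((p * j : ℕ) : ZMod p) = 0 := by
    rw [Nat.cast_mul, ZMod.natCast_self, zero_mul]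
  rw [h, C_0, zero_mul]

/-- With `G = X ^ (p j)`, `e = 0`, and `G = f ^ ((p - 1) / 2) X ^ (p j)`, `e = - 1/2`. -/
theorem deriv_aux (hp : p ≠ 2) (f : (ZMod p)[X]) (j : ℕ) :
    (f * derivative ((X : (ZMod p)[X]) ^ (p * j)) = C 0 * derivative f * X ^ (p * j)) ∧
    f * derivative (f ^ ((p - 1) / 2) * X ^ (p * j)) =
      C (-1 / 2) * derivative f * (f ^ ((p - 1) / 2) * X ^ (p * j)) := by
  refine ⟨?_, ?_⟩
  · rw [deriv_Xp, mul_zero, C_0, zero_mul, zero_mul]
  · rw [derivative_mul, deriv_Xp, mul_zero, add_zero, ← mul_assoc, deriv_half hp, mul_assoc]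

end Pool.Agent.Helper14.PF
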