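import Pool.Agent.Helper14.PS.Classes2
import Pool.Agent.Helper14.PS.Pencil2
import Pool.Agent.Helper14.PF.Count

/-!
# PF-Fam: polynomial families of covers

`fam_power`: for the covers `z ^ m + ∑ h j z ^ j + ∑ ((1 + g i ^ 2) t i ^ d + ∑ q i l t i ^ l) z ^ i = 0`, `d` odd, and `m = 2` or
`d = 1`, uniformly in `h`, `q` and `g`, in every box of side `N ≥ N₀`, whatever its position, at most
`N ^ (k - 1/2000)` of the covers have a rational point.
-/

open AlgebraicGeometry CategoryTheory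

set_option autoImplicit false

namespace Pool.Agent.Helper14.PF

open WeierstrassCurve Finset Pool.Agent.Helper11.Cov Pool.Agent.Helper14.PS

/-- `(P, z)` is a rational point of the cover
`z ^ m + ∑ j, h j * z ^ j + ∑ i, ((1 + g i ^ 2) * t i ^ d + ∑ l, q i l * t i ^ l) * z ^ i = 0`. -/
def OnFam {n : ℕ} (a b : Fin n → ℤ) {m k d : ℕ} (h : Fin m → MvPolynomial (Fin n × Fin 3) ℤ)
    (q : Fin k → Fin d → MvPolynomial (Fin n × Fin 3) ℤ)
    (g : Fin k → MvPolynomial (Fin n × Fin 3) ℤ)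
    (t : Fin k → ℤ) (P : ∀ i, (E (a i) (b i)).Point) (z : ℚ) : Prop :=
  z ^ m + ∑ j, MvPolynomial.aeval (fun p : Fin n × Fin 3 => coo p.2 (P p.1)) (h j) * z ^ (j : ℕ) +
    ∑ i, ((1 + (MvPolynomial.aeval (fun p : Fin n × Fin 3 => coo p.2 (P p.1)) (g i)) ^ 2) *
      (t i : ℚ) ^ d + ∑ l, MvPolynomial.aeval (fun p : Fin n × Fin 3 => coo p.2 (P p.1)) (q i l) *
        (t i : ℚ) ^ (l : ℕ)) * z ^ (i : ℕ) = 0

/-- The coefficients with the parameters absorbed. -/
noncomputable def absW {σ : Type} {m k : ℕ} (h : Fin m → MvPolynomial σ ℤ)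
    (w : Fin k → MvPolynomial σ ℤ) (j : Fin m) : MvPolynomial σ ℤ :=
  h j + if hj : (j : ℕ) < k then w ⟨j, hj⟩ else 0

theorem sum_absW {σ : Type} {S : Type*} [CommRing S] {m k : ℕ} (hkm : k ≤ m)
    (h : Fin m → MvPolynomial σ ℤ) (w : Fin k → MvPolynomial σ ℤ) (f : σ → S) (z : S) :
    ∑ j, MvPolynomial.aeval f (absW h w j) * z ^ (j : ℕ) =
      ∑ j, MvPolynomial.aeval f (h j) * z ^ (j : ℕ) +
        ∑ i, MvPolynomial.aeval f (w i) * z ^ (i : ℕ) := by
  rw [← sum_extend hkm (fun i => MvPolynomial.aeval f (w i)) z, ← Finset.sum_add_distrib]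
  refine Finset.sum_congr rfl fun j _ => ?_
  unfold absW
  rw [map_add, add_mul]
  congr 1
  by_cases hj : (j : ℕ) < k
  · rw [dif_pos hj, dif_pos hj]
  · rw [dif_neg hj, dif_neg hj, map_zero, zero_mul]

/-- The coefficient for given values of the parameters. -/
noncomputable def wt {σ : Type} {k d : ℕ} (q : Fin k → Fin d → MvPolynomial σ ℤ)
    (g : Fin k → MvPolynomial σ ℤ) (t : Fin k → ℤ) (i : Fin k) : MvPolynomial σ ℤ :=
  (1 + g i ^ 2) * MvPolynomial.C (t i) ^ d + ∑ l, q i l * MvPolynomial.C (t i) ^ (l : ℕ)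

theorem aeval_wt {σ : Type} {S : Type*} [CommRing S] {k d : ℕ}
    (q : Fin k → Fin d → MvPolynomial σ ℤ) (g : Fin k → MvPolynomial σ ℤ) (t : Fin k → ℤ)
    (i : Fin k) (f : σ → S) : MvPolynomial.aeval f (wt q g t i) =
      (1 + (MvPolynomial.aeval f (g i)) ^ 2) * (t i : S) ^ d +
        ∑ l, MvPolynomial.aeval f (q i l) * (t i : S) ^ (l : ℕ) := by
  unfold wt
  simp only [map_add, map_mul, map_one, map_pow, map_sum, MvPolynomial.aeval_C]
  rfl

/-- Absorbing the parameters. -/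
theorem onFam_iff {n : ℕ} {a b : Fin n → ℤ} {m k d : ℕ} (hkm : k ≤ m)
    {h : Fin m → MvPolynomial (Fin n × Fin 3) ℤ}
    {q : Fin k → Fin d → MvPolynomial (Fin n × Fin 3) ℤ}
    {g : Fin k → MvPolynomial (Fin n × Fin 3) ℤ}
    {t : Fin k → ℤ} {P : ∀ i, (E (a i) (b i)).Point} {z : ℚ} :
    OnFam a b h q g t P z ↔
      OnPencil a b (absW h (wt q g t)) (Fin.elim0 : Fin 0 → ℤ) P z := by
  unfold OnFam OnPencil
  rw [sum_absW hkm, Finset.univ_eq_empty (α := Fin 0), Finset.sum_empty, add_zero, add_assoc]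
  simp only [aeval_wt]

/-- For `d = 1` the family is a pencil. -/
theorem onFam_one {n : ℕ} {a b : Fin n → ℤ} {m k : ℕ} (hkm : k ≤ m)
    {h : Fin m → MvPolynomial (Fin n × Fin 3) ℤ}
    {q : Fin k → Fin 1 → MvPolynomial (Fin n × Fin 3) ℤ}
    {g : Fin k → MvPolynomial (Fin n × Fin 3) ℤ}
    {t : Fin k → ℤ} {P : ∀ i, (E (a i) (b i)).Point} {z : ℚ} :
    OnFam a b h q g t P z ↔ OnPencil2 a b (absW h (fun i => q i 0)) g t P z := by
  unfold OnFam OnPencil2
  rw [sum_absW hkm, add_assoc, add_assoc, add_assoc, ← Finset.sum_add_distrib]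
  have e : ∀ i : Fin k,
      ((1 + (MvPolynomial.aeval (fun p : Fin n × Fin 3 => coo p.2 (P p.1)) (g i)) ^ 2) *
      (t i : ℚ) ^ 1 + ∑ l : Fin 1, MvPolynomial.aeval
        (fun p : Fin n × Fin 3 => coo p.2 (P p.1)) (q i l) * (t i : ℚ) ^ (l : ℕ)) * z ^ (i : ℕ) =
      MvPolynomial.aeval (fun p : Fin n × Fin 3 => coo p.2 (P p.1)) (q i 0) * z ^ (i : ℕ) +
      (t i : ℚ) * (1 + (MvPolynomial.aeval
        (fun p : Fin n × Fin 3 => coo p.2 (P p.1)) (g i)) ^ 2) * z ^ (i : ℕ) := by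
    intro i
    rw [Fin.sum_univ_one]
    simp only [Fin.val_zero, pow_zero, pow_one]
    ring
  simp only [e]

/-- The count modulo `r` for double covers. -/
theorem count_fam {d : ℕ} (hd : Odd d) : ∃ r₀ : ℕ, ∀ (r : ℕ) [Fact r.Prime], r₀ ≤ r →
    ∀ (u : ZMod r) (_ : u ≠ 0) (c₀ c₁ : ZMod r) (q : Fin d → ZMod r) (v : ZMod r)
      (B : Finset (Fin 1 → ZMod r)),
      (∀ τ ∈ B, ∃ Z, Z ^ 2 + (c₀ + c₁ * Z) +
        (u * (v + τ 0) ^ d + ∑ l, q l * (v + τ 0) ^ (l : ℕ)) = 0) →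
      (#B : ℝ) ≤ 7 / 8 * r := by
  classical
  obtain ⟨r₀, hr₀⟩ := stepanov hd
  refine ⟨max r₀ 3, fun r _ hr u hu c₀ c₁ q v B hB => ?_⟩
  have h3 : 3 ≤ r := (le_max_right _ _).trans hr
  have h2 : (2 : ZMod r) ≠ 0 := by
    intro h0
    have : ((2 : ℕ) : ZMod r) = 0 := by exact_mod_cast h0
    rw [ZMod.natCast_eq_zero_iff] at this
    have := Nat.le_of_dvd (by norm_num) this
    omega
  have hd0 : 0 < d := hd.pos
  set f : Polynomial (ZMod r) := Polynomial.C (-u) * Polynomial.X ^ d +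
    (Polynomial.C (c₁ ^ 2 / 4 - c₀) - ∑ l : Fin d, Polynomial.C (q l) * Polynomial.X ^ (l : ℕ))
    with hf
  have hdeg : f.natDegree = d := by
    have h4 : (Polynomial.C (-u) * Polynomial.X ^ d : Polynomial (ZMod r)).degree = d :=
      Polynomial.degree_C_mul_X_pow d (neg_ne_zero.mpr hu)
    have h5 : (Polynomial.C (c₁ ^ 2 / 4 - c₀) -
        ∑ l : Fin d, Polynomial.C (q l) * Polynomial.X ^ (l : ℕ) : Polynomial (ZMod r)).degree < d := by
      refine lt_of_le_of_lt (Polynomial.degree_sub_le _ _) (max_lt ?_ ?_)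
      · exact lt_of_le_of_lt Polynomial.degree_C_le (by exact_mod_cast hd0)
      · refine lt_of_le_of_lt (Polynomial.degree_sum_le _ _) ?_
        rw [Finset.sup_lt_iff (by exact_mod_cast WithBot.bot_lt_coe d)]
        intro s _
        refine lt_of_le_of_lt (Polynomial.degree_C_mul_X_pow_le _ _) ?_
        exact_mod_cast s.2
    apply Polynomial.natDegree_eq_of_degree_eq_some
    rw [hf, Polynomial.degree_add_eq_left_of_degree_lt (by rw [h4]; exact h5), h4]
  refine le_trans ?_ (hr₀ r ((le_max_left _ _).trans hr) f hdeg)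
  have h6 : #B ≤ #{t : ZMod r | IsSquare (f.eval t)} := by
    refine Finset.card_le_card_of_injOn (fun τ => v + τ 0) ?_ ?_
    · intro τ hτ
      obtain ⟨Z, hZ⟩ := hB τ hτ
      rw [Finset.mem_coe, Finset.mem_filter]
      refine ⟨Finset.mem_univ _, Z + c₁ / 2, ?_⟩
      rw [hf]
      simp only [Polynomial.eval_add, Polynomial.eval_sub, Polynomial.eval_mul, Polynomial.eval_C,
        Polynomial.eval_pow, Polynomial.eval_X, Polynomial.eval_finsetSum]
      have h4 : (4 : ZMod r) = 2 * 2 := by norm_num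
      have h5 : (Z + c₁ / 2) * (Z + c₁ / 2) = Z ^ 2 + c₁ * Z + c₁ ^ 2 / 4 := by
        rw [h4]
        field_simp
        ring
      rw [h5]
      linear_combination -hZ
    · intro τ _ τ' _ h
      funext i
      rw [Subsingleton.elim i 0]
      exact add_left_cancel h
  exact_mod_cast h6

/-- **Power saving for polynomial families**, in every box of side `N ≥ N₀`. -/
theorem fam_power {n : ℕ} {a b : Fin n → ℤ} (hK : Key5 a b) {m k d : ℕ} (hm : 2 ≤ m)
    (hk : k = min (m - 1) 2) (hd : Odd d) (hmd : m = 2 ∨ d = 1) : ∃ N₀ : ℕ, ∀ N : ℕ, N₀ ≤ N →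
      ∀ (h : Fin m → MvPolynomial (Fin n × Fin 3) ℤ)
        (q : Fin k → Fin d → MvPolynomial (Fin n × Fin 3) ℤ)
        (g : Fin k → MvPolynomial (Fin n × Fin 3) ℤ)
        (v : Fin k → ℤ), (Nat.card {t : Fin k → ℤ // (∃ P z, OnFam a b h q g t P z) ∧
          ∀ i, v i ≤ t i ∧ t i < v i + N} : ℝ) ≤ (N : ℝ) ^ ((k : ℝ) - 1 / 2000) := by
  classical
  by_cases hd1 : d = 1
  · subst hd1
    obtain ⟨N₀, hN₀⟩ := pencil2_power hK hm hk
    refine ⟨N₀, fun N hN h q g v => ?_⟩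
    have := hN₀ N hN (absW h (fun i => q i 0)) g v
    simp only [← onFam_one (show k ≤ m by omega)] at this
    exact this
  obtain rfl : m = 2 := hmd.resolve_right hd1
  obtain rfl : k = 1 := by omega
  obtain ⟨r₀, hr₀⟩ := count_fam hd
  obtain ⟨N₀, hN₀⟩ := family_bound_ge hK (k := 1) le_rfl (θ := 7 / 8) (by norm_num) (by norm_num) r₀
  refine ⟨N₀, fun N hN h q g v => ?_⟩
  choose Ac Bc Dc hrep using fun (i : Fin n) (Q : (E (a i) (b i)).Point) => exists_irep Q
  -- the reductions of the functions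
  let fP : (∀ i, (E (a i) (b i)).Point) → ∀ l : ℕ, [Fact l.Prime] → Fin n × Fin 3 → ZMod l :=
    fun P l _ p =>
      cooR (Ac p.1 (P p.1) : ZMod l) (Bc p.1 (P p.1)) (Dc p.1 (P p.1)) p.2
  let Bd : (∀ i, (E (a i) (b i)).Point) → ∀ r : ℕ, Finset (Fin 1 → ZMod r) := fun P r =>
    if hr : r.Prime then
      haveI : Fact r.Prime := ⟨hr⟩
      ({τ | ∃ Z, Z ^ 2 + (MvPolynomial.aeval (fP P r) (h 0) + MvPolynomial.aeval (fP P r) (h 1) * Z) +
        ((1 + (MvPolynomial.aeval (fP P r) (g 0)) ^ 2) * (((v 0 : ℤ) : ZMod r) + τ 0) ^ d +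
          ∑ l, MvPolynomial.aeval (fP P r) (q 0 l) * (((v 0 : ℤ) : ZMod r) + τ 0) ^ (l : ℕ)) = 0} :
        Finset (Fin 1 → ZMod r))
    else ∅
  let On : (Fin 1 → ℤ) → (∀ i, (E (a i) (b i)).Point) → Prop := fun t P =>
    ∃ z, OnFam a b h q g (fun i => v i + t i) P z
  have key := hN₀ N hN On Bd ?_ ?_ ?_
  · have h2 : Nat.card {t : Fin 1 → ℤ // (∃ P z, OnFam a b h q g t P z) ∧
        ∀ i, v i ≤ t i ∧ t i < v i + N} ≤ #{t ∈ Bx 1 N | ∃ P, On t P} := by
      have h3 := Nat.card_le_card_of_injective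
        (fun t : {t : Fin 1 → ℤ // (∃ P z, OnFam a b h q g t P z) ∧
            ∀ i, v i ≤ t i ∧ t i < v i + N} =>
          (⟨fun i => t.1 i - v i, by
            rw [Finset.mem_filter, mem_Bx]
            refine ⟨fun i => ?_, ?_⟩
            · have := t.2.2 i
              omega
            · obtain ⟨P, z, hz⟩ := t.2.1
              refine ⟨P, z, ?_⟩
              have e1 : (fun i => v i + (t.1 i - v i)) = t.1 := by
                funext i
                ring
              rw [e1]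
              exact hz⟩ : ↥({t ∈ Bx 1 N | ∃ P, On t P})))
        (fun t t' htt => by
          apply Subtype.ext
          funext i
          have h4 := congrFun (congrArg Subtype.val htt) i
          simp only at h4
          omega)
      refine h3.trans (le_of_eq ?_)
      rw [Nat.card_eq_fintype_card, Fintype.card_coe]
    exact le_trans (by exact_mod_cast h2) key
  · -- the number of residues
    intro P r hr hrr h4
    have hF : Fact r.Prime := ⟨hr⟩
    simp only [Bd, dif_pos hr]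
    rw [pow_one]
    exact hr₀ r hrr (1 + (MvPolynomial.aeval (fP P r) (g 0)) ^ 2) (one_add_sq_ne h4 _)
      (MvPolynomial.aeval (fP P r) (h 0)) (MvPolynomial.aeval (fP P r) (h 1))
      (fun l => MvPolynomial.aeval (fP P r) (q 0 l)) ((v 0 : ℤ) : ZMod r) _
      (fun τ hτ => (Finset.mem_filter.mp hτ).2)
  · -- reduction
    rintro t P r hr hrr h4 ⟨z, hc⟩
    have hF : Fact r.Prime := ⟨hr⟩
    simp only [Bd, dif_pos hr]
    rw [Finset.mem_filter]
    refine ⟨Finset.mem_univ _, ?_⟩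
    rw [onFam_iff (by omega)] at hc
    unfold OnPencil at hc
    have e1 : (fun p : Fin n × Fin 3 => coo p.2 (P p.1)) = fun p : Fin n × Fin 3 =>
        cooR (Ac p.1 (P p.1) : ℚ) (Bc p.1 (P p.1)) (Dc p.1 (P p.1)) p.2 := by
      funext p
      exact coo_irep (hrep p.1 (P p.1)) p.2
    rw [e1] at hc
    obtain ⟨Z, hZ⟩ := reduce_eq (l := r) h4 (A := fun i => Ac i (P i)) (B := fun i => Bc i (P i))
      (D := fun i => Dc i (P i)) (fun i => (hrep i (P i)).1) (by omega) _ _ hc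
    refine ⟨Z, ?_⟩
    rw [sum_absW (by omega), Finset.univ_eq_empty (α := Fin 0), Finset.sum_empty, add_zero,
      ← add_assoc, Fin.sum_univ_two, Fin.sum_univ_one] at hZ
    simp only [aeval_wt, Fin.val_zero, Fin.val_one, pow_zero, pow_one, mul_one] at hZ
    rw [← hZ]
    push_cast
    rfl
  · -- classes
    intro P P' r hF hrr h4 hPP'
    have hr : r.Prime := hF.out
    simp only [Bd, dif_pos hr]
    have e2 : fP P' r = fP P r := by
      funext p
      obtain ⟨u, hu, hA, hB, hD⟩ := (hrep p.1 (P p.1)).cong (hrep p.1 (P' p.1)) (hPP' p.1)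
      simp only [fP]
      rw [hA, hB, hD, cooR_scale hu]
    rw [e2]

/-- If a variety dominating the cover has dense rational points, the cover has a rational point. -/
theorem exists_onFam {n : ℕ} {a b : Fin n → ℤ} (hg : ∀ i, Good (a i) (b i)) {m k d : ℕ}
    (hkm : k ≤ m) {h : Fin m → MvPolynomial (Fin n × Fin 3) ℤ}
    {q : Fin k → Fin d → MvPolynomial (Fin n × Fin 3) ℤ}
    {g : Fin k → MvPolynomial (Fin n × Fin 3) ℤ} {t : Fin k → ℤ} {V : Scheme.{0}} [IsIntegral V]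
    (f : V ⟶ Spec (CommRingCat.of ℚ)) (x y : Fin n → V.functionField) (z : V.functionField)
    (hxy : ∀ i, y i ^ 2 = x i ^ 3 + (a i : V.functionField) * x i + (b i : V.functionField))
    (hz : z ^ m + ∑ j, MvPolynomial.aeval (fun p : Fin n × Fin 3 =>
      ![1, x p.1, y p.1] p.2 / (1 + x p.1 ^ 2)) (h j) * z ^ (j : ℕ) +
      ∑ i, ((1 + (MvPolynomial.aeval (fun p : Fin n × Fin 3 =>
        ![1, x p.1, y p.1] p.2 / (1 + x p.1 ^ 2)) (g i)) ^ 2) * (t i : V.functionField) ^ d +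
        ∑ l, MvPolynomial.aeval (fun p : Fin n × Fin 3 =>
          ![1, x p.1, y p.1] p.2 / (1 + x p.1 ^ 2)) (q i l) * (t i : V.functionField) ^ (l : ℕ)) *
        z ^ (i : ℕ) = 0)
    (hdense : Dense (Pool.Agent.Helper11.rationalPoints f)) : ∃ P z, OnFam a b h q g t P z := by
  obtain ⟨P, z', hP⟩ := exists_onPencil hg (h := absW h (wt q g t)) (t := (Fin.elim0 : Fin 0 → ℤ))
    f x y z hxy (by
      rw [sum_absW hkm, Finset.univ_eq_empty (α := Fin 0), Finset.sum_empty, add_zero,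
        ← add_assoc]
      simp only [aeval_wt]
      exact hz) hdense
  exact ⟨P, z', (onFam_iff hkm).mpr hP⟩

end Pool.Agent.Helper14.PF
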