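import Pool.Agent.Helper14.PS.Classes3
import Pool.Agent.Helper14.PF.Fam

/-!
# PF-Fam2: polynomial families of covers, leading coefficients `c i (1 + g i ^ 2)`

`famC_power`: `fam_power` for the covers
`z ^ m + ∑ h j z ^ j + ∑ (c i (1 + g i ^ 2) t i ^ d + ∑ q i l t i ^ l) z ^ i = 0`, uniformly in the integers `c i` all of whose
prime factors divide `e`, `1 ≤ e ≤ N`.
-/

open AlgebraicGeometry CategoryTheory

set_option autoImplicit false

namespace Pool.Agent.Helper14.PF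

open WeierstrassCurve Finset Pool.Agent.Helper11.Cov Pool.Agent.Helper14.PS

/-- `(P, z)` is a rational point of the cover
`z ^ m + ∑ j, h j * z ^ j + ∑ i, (c i * (1 + g i ^ 2) * t i ^ d + ∑ l, q i l * t i ^ l) * z ^ i = 0`. -/
def OnFamC {n : ℕ} (a b : Fin n → ℤ) {m k d : ℕ} (c : Fin k → ℤ)
    (h : Fin m → MvPolynomial (Fin n × Fin 3) ℤ)
    (q : Fin k → Fin d → MvPolynomial (Fin n × Fin 3) ℤ)
    (g : Fin k → MvPolynomial (Fin n × Fin 3) ℤ)
    (t : Fin k → ℤ) (P : ∀ i, (E (a i) (b i)).Point) (z : ℚ) : Prop :=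
  z ^ m + ∑ j, MvPolynomial.aeval (fun p : Fin n × Fin 3 => coo p.2 (P p.1)) (h j) * z ^ (j : ℕ) +
    ∑ i, ((c i : ℚ) * (1 + (MvPolynomial.aeval (fun p : Fin n × Fin 3 => coo p.2 (P p.1)) (g i)) ^ 2) *
      (t i : ℚ) ^ d + ∑ l, MvPolynomial.aeval (fun p : Fin n × Fin 3 => coo p.2 (P p.1)) (q i l) *
        (t i : ℚ) ^ (l : ℕ)) * z ^ (i : ℕ) = 0

/-- The coefficient for given values of the parameters. -/
noncomputable def wtC {σ : Type} {k d : ℕ} (c : Fin k → ℤ) (q : Fin k → Fin d → MvPolynomial σ ℤ)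
    (g : Fin k → MvPolynomial σ ℤ) (t : Fin k → ℤ) (i : Fin k) : MvPolynomial σ ℤ :=
  MvPolynomial.C (c i) * (1 + g i ^ 2) * MvPolynomial.C (t i) ^ d +
    ∑ l, q i l * MvPolynomial.C (t i) ^ (l : ℕ)

theorem aeval_wtC {σ : Type} {S : Type*} [CommRing S] {k d : ℕ} (c : Fin k → ℤ)
    (q : Fin k → Fin d → MvPolynomial σ ℤ) (g : Fin k → MvPolynomial σ ℤ) (t : Fin k → ℤ)
    (i : Fin k) (f : σ → S) : MvPolynomial.aeval f (wtC c q g t i) =
      (c i : S) * (1 + (MvPolynomial.aeval f (g i)) ^ 2) * (t i : S) ^ d +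
        ∑ l, MvPolynomial.aeval f (q i l) * (t i : S) ^ (l : ℕ) := by
  unfold wtC
  simp only [map_add, map_mul, map_one, map_pow, map_sum, MvPolynomial.aeval_C]
  rfl

/-- Absorbing the parameters. -/
theorem onFamC_iff {n : ℕ} {a b : Fin n → ℤ} {m k d : ℕ} (hkm : k ≤ m) {c : Fin k → ℤ}
    {h : Fin m → MvPolynomial (Fin n × Fin 3) ℤ}
    {q : Fin k → Fin d → MvPolynomial (Fin n × Fin 3) ℤ}
    {g : Fin k → MvPolynomial (Fin n × Fin 3) ℤ}
    {t : Fin k → ℤ} {P : ∀ i, (E (a i) (b i)).Point} {z : ℚ} :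
    OnFamC a b c h q g t P z ↔
      OnPencil a b (absW h (wtC c q g t)) (Fin.elim0 : Fin 0 → ℤ) P z := by
  unfold OnFamC OnPencil
  rw [sum_absW hkm, Finset.univ_eq_empty (α := Fin 0), Finset.sum_empty, add_zero, add_assoc]
  simp only [aeval_wtC]

/-- The count modulo `r`. -/
theorem count_gen {m k d : ℕ} (hm : 2 ≤ m) (hk : k = min (m - 1) 2) (hd : Odd d)
    (hmd : m = 2 ∨ d = 1) : ∃ (θ : ℝ) (r₀ : ℕ), 0 ≤ θ ∧ θ < 1 ∧ ∀ (r : ℕ) [Fact r.Prime], r₀ ≤ r →
    ∀ (u : Fin k → ZMod r) (_ : ∀ i, u i ≠ 0) (h : Fin m → ZMod r) (q : Fin k → Fin d → ZMod r)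
      (v : Fin k → ZMod r) (B : Finset (Fin k → ZMod r)),
      (∀ τ ∈ B, ∃ Z, Z ^ m + ∑ j, h j * Z ^ (j : ℕ) +
        ∑ i, (u i * (v i + τ i) ^ d + ∑ l, q i l * (v i + τ i) ^ (l : ℕ)) * Z ^ (i : ℕ) = 0) →
      (#B : ℝ) ≤ θ * (r : ℝ) ^ k := by
  classical
  have hkm : k ≤ m := by omega
  by_cases hd1 : d = 1
  · subst hd1
    have hm' : (2:ℝ) ≤ m := by exact_mod_cast hm
    refine ⟨1 - 2 / (3 * m), 3, ?_, ?_, fun r _ h3 u hu h q v B hB => ?_⟩
    · have : 2 / (3 * (m:ℝ)) < 1 := by rw [div_lt_one (by positivity)]; linarith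
      linarith
    · have : 0 < 2 / (3 * (m:ℝ)) := by positivity
      linarith
    have h2 : (2 : ZMod r) ≠ 0 := by
      intro h0
      have : ((2 : ℕ) : ZMod r) = 0 := by exact_mod_cast h0
      rw [ZMod.natCast_eq_zero_iff] at this
      have := Nat.le_of_dvd (by norm_num) this
      omega
    set h' : Fin m → ZMod r := fun j => h j + if hj : (j : ℕ) < k then q ⟨j, hj⟩ 0 else 0 with hh'
    have hsum : ∀ Z : ZMod r, ∑ j, h' j * Z ^ (j : ℕ) =
        ∑ j, h j * Z ^ (j : ℕ) + ∑ i, q i 0 * Z ^ (i : ℕ) := by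
      intro Z
      rw [← sum_extend hkm (fun i => q i 0) Z, ← Finset.sum_add_distrib]
      refine Finset.sum_congr rfl fun j _ => ?_
      rw [hh']
      simp only
      rw [add_mul]
      congr 1
      by_cases hj : (j : ℕ) < k
      · rw [dif_pos hj, dif_pos hj]
      · rw [dif_neg hj, dif_neg hj, zero_mul]
    have := count_param (F := ZMod r) h2 (by rw [ZMod.card]; exact h3) hm hk h'
      {t | ∃ Z, Z ^ m + ∑ j, h' j * Z ^ (j : ℕ) + ∑ i, t i * Z ^ (i : ℕ) = 0}
      (fun t ht => (Finset.mem_filter.mp ht).2)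
    have h5 := Finset.card_le_card_of_injOn (s := B)
      (t := ({t | ∃ Z, Z ^ m + ∑ j, h' j * Z ^ (j : ℕ) + ∑ i, t i * Z ^ (i : ℕ) = 0} :
        Finset (Fin k → ZMod r)))
      (fun τ i => u i * (v i + τ i)) (by
        intro τ hτ
        rw [Finset.mem_coe] at hτ
        obtain ⟨Z, hZ⟩ := hB τ hτ
        rw [Finset.mem_coe, Finset.mem_filter]
        refine ⟨Finset.mem_univ _, Z, ?_⟩
        rw [hsum, ← hZ, add_assoc, add_assoc, add_assoc, ← Finset.sum_add_distrib]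
        congr 2
        refine Finset.sum_congr rfl fun i _ => ?_
        rw [Fin.sum_univ_one]
        simp only [Fin.val_zero, pow_zero, pow_one, mul_one]
        ring) (by
        intro τ _ τ' _ htt
        funext i
        have := congrFun htt i
        simp only at this
        have := mul_left_cancel₀ (hu i) this
        exact add_left_cancel this)
    have h6 := (Nat.cast_le (α := ℝ)).mpr this
    have h7 : 2 ≤ 3 * m := by omega
    push_cast [h7] at h6
    rw [ZMod.card] at h6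
    have hm0 : (0:ℝ) < 3 * m := by positivity
    have h8 : (1 - 2 / (3 * m) : ℝ) * (r : ℝ) ^ k = ((3 * m - 2 : ℝ) * (r : ℝ) ^ k) / (3 * m) := by
      field_simp
    rw [h8, le_div_iff₀ hm0]
    have h9 := (Nat.cast_le (α := ℝ)).mpr h5
    nlinarith
  · obtain rfl : m = 2 := hmd.resolve_right hd1
    obtain rfl : k = 1 := by omega
    obtain ⟨r₀, hr₀⟩ := count_fam hd
    refine ⟨7 / 8, r₀, by norm_num, by norm_num, fun r _ hr u hu h q v B hB => ?_⟩
    rw [pow_one]
    refine hr₀ r hr (u 0) (hu 0) (h 0) (h 1) (q 0) (v 0) B fun τ hτ => ?_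
    obtain ⟨Z, hZ⟩ := hB τ hτ
    refine ⟨Z, ?_⟩
    rw [Fin.sum_univ_two, Fin.sum_univ_one] at hZ
    simp only [Fin.val_zero, Fin.val_one, pow_zero, pow_one, mul_one] at hZ
    exact hZ

/-- **Power saving for polynomial families**, in every box of side `N ≥ N₀`, uniformly. -/
theorem famC_power {n : ℕ} {a b : Fin n → ℤ} (hK : Key5 a b) {m k d : ℕ} (hm : 2 ≤ m)
    (hk : k = min (m - 1) 2) (hd : Odd d) (hmd : m = 2 ∨ d = 1) : ∃ N₀ : ℕ, ∀ N : ℕ, N₀ ≤ N →
      ∀ e : ℕ, 1 ≤ e → e ≤ N → ∀ (c : Fin k → ℤ) (_ : ∀ i, ∀ r : ℕ, r.Prime → (r : ℤ) ∣ c i → r ∣ e)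
        (h : Fin m → MvPolynomial (Fin n × Fin 3) ℤ)
        (q : Fin k → Fin d → MvPolynomial (Fin n × Fin 3) ℤ)
        (g : Fin k → MvPolynomial (Fin n × Fin 3) ℤ)
        (v : Fin k → ℤ), (Nat.card {t : Fin k → ℤ // (∃ P z, OnFamC a b c h q g t P z) ∧
          ∀ i, v i ≤ t i ∧ t i < v i + N} : ℝ) ≤ (N : ℝ) ^ ((k : ℝ) - 1 / 2000) := by
  classical
  obtain ⟨θ, r₀, hθ0, hθ1, hr₀⟩ := count_gen hm hk hd hmd
  obtain ⟨N₀, hN₀⟩ := family_bound_nd hK (k := k) (by omega) hθ0 hθ1 r₀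
  refine ⟨N₀, fun N hN e he heN c hce h q g v => ?_⟩
  choose Ac Bc Dc hrep using fun (i : Fin n) (Q : (E (a i) (b i)).Point) => exists_irep Q
  -- the reductions of the functions
  let fP : (∀ i, (E (a i) (b i)).Point) → ∀ l : ℕ, [Fact l.Prime] → Fin n × Fin 3 → ZMod l :=
    fun P l _ p =>
      cooR (Ac p.1 (P p.1) : ZMod l) (Bc p.1 (P p.1)) (Dc p.1 (P p.1)) p.2
  let Bd : (∀ i, (E (a i) (b i)).Point) → ∀ r : ℕ, Finset (Fin k → ZMod r) := fun P r =>
    if hr : r.Prime then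
      haveI : Fact r.Prime := ⟨hr⟩
      ({τ | ∃ Z, Z ^ m + ∑ j, MvPolynomial.aeval (fP P r) (h j) * Z ^ (j : ℕ) +
        ∑ i, (((c i : ℤ) : ZMod r) * (1 + (MvPolynomial.aeval (fP P r) (g i)) ^ 2) *
          (((v i : ℤ) : ZMod r) + τ i) ^ d +
          ∑ l, MvPolynomial.aeval (fP P r) (q i l) * (((v i : ℤ) : ZMod r) + τ i) ^ (l : ℕ)) *
            Z ^ (i : ℕ) = 0} : Finset (Fin k → ZMod r))
    else ∅
  let On : (Fin k → ℤ) → (∀ i, (E (a i) (b i)).Point) → Prop := fun t P =>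
    ∃ z, OnFamC a b c h q g (fun i => v i + t i) P z
  have key := hN₀ N hN e he heN On Bd ?_ ?_ ?_
  · have h2 : Nat.card {t : Fin k → ℤ // (∃ P z, OnFamC a b c h q g t P z) ∧
        ∀ i, v i ≤ t i ∧ t i < v i + N} ≤ #{t ∈ Bx k N | ∃ P, On t P} := by
      have h3 := Nat.card_le_card_of_injective
        (fun t : {t : Fin k → ℤ // (∃ P z, OnFamC a b c h q g t P z) ∧
            ∀ i, v i ≤ t i ∧ t i < v i + N} =>
          (⟨fun i => t.1 i - v i, by
            rw [Finset.mem_filter, mem_Bx]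
            refine ⟨fun i => ?_, ?_⟩
            · have := t.2.2 i
              omega
            · obtain ⟨P, z, hz⟩ := t.2.1
              refine ⟨P, z, ?_⟩
              have e1 : (fun i => v i + (t.1 i - v i)) = t.1 := by
                funext i
                ring
              rw [e1]
              exact hz⟩ : ↥({t ∈ Bx k N | ∃ P, On t P})))
        (fun t t' htt => by
          apply Subtype.ext
          funext i
          have h4 := congrFun (congrArg Subtype.val htt) i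
          simp only at h4
          omega)
      refine h3.trans (le_of_eq ?_)
      rw [Nat.card_eq_fintype_card, Fintype.card_coe]
    exact le_trans (by exact_mod_cast h2) key
  · -- the number of residues
    intro P r hr hrr hnd h4
    have hF : Fact r.Prime := ⟨hr⟩
    simp only [Bd, dif_pos hr]
    exact hr₀ r hrr (fun i => ((c i : ℤ) : ZMod r) * (1 + (MvPolynomial.aeval (fP P r) (g i)) ^ 2))
      (fun i => mul_ne_zero (fun h0 => hnd (hce i r hr
        ((ZMod.intCast_zmod_eq_zero_iff_dvd (c i) r).mp h0))) (one_add_sq_ne h4 _))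
      (fun j => MvPolynomial.aeval (fP P r) (h j))
      (fun i l => MvPolynomial.aeval (fP P r) (q i l)) (fun i => ((v i : ℤ) : ZMod r)) _
      (fun τ hτ => (Finset.mem_filter.mp hτ).2)
  · -- reduction
    rintro t P r hr hrr hnd h4 ⟨z, hc⟩
    have hF : Fact r.Prime := ⟨hr⟩
    simp only [Bd, dif_pos hr]
    rw [Finset.mem_filter]
    refine ⟨Finset.mem_univ _, ?_⟩
    rw [onFamC_iff (by omega)] at hc
    unfold OnPencil at hc
    have e1 : (fun p : Fin n × Fin 3 => coo p.2 (P p.1)) = fun p : Fin n × Fin 3 =>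
        cooR (Ac p.1 (P p.1) : ℚ) (Bc p.1 (P p.1)) (Dc p.1 (P p.1)) p.2 := by
      funext p
      exact coo_irep (hrep p.1 (P p.1)) p.2
    rw [e1] at hc
    obtain ⟨Z, hZ⟩ := reduce_eq (l := r) h4 (A := fun i => Ac i (P i)) (B := fun i => Bc i (P i))
      (D := fun i => Dc i (P i)) (fun i => (hrep i (P i)).1) (by omega) _ _ hc
    refine ⟨Z, ?_⟩
    rw [sum_absW (by omega), Finset.univ_eq_empty (α := Fin 0), Finset.sum_empty, add_zero,
      ← add_assoc] at hZ
    simp only [aeval_wtC] at hZ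
    rw [← hZ]
    push_cast
    rfl
  · -- classes
    intro P P' r hF hrr hnd h4 hPP'
    have hr : r.Prime := hF.out
    simp only [Bd, dif_pos hr]
    have e2 : fP P' r = fP P r := by
      funext p
      obtain ⟨u, hu, hA, hB, hD⟩ := (hrep p.1 (P p.1)).cong (hrep p.1 (P' p.1)) (hPP' p.1)
      simp only [fP]
      rw [hA, hB, hD, cooR_scale hu]
    rw [e2]

end Pool.Agent.Helper14.PF
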