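import Pool.Agent.Helper14.PF.Fam2

/-!
# PF-FamQ: polynomial families of covers, rational parameters

`famQ_power`: for `N ≥ N₀`, `1 ≤ e ≤ N` every box of side `N` contains at most `N ^ (k - 1/2000)` integral points `A` for which
the cover with the parameters `A i / e` has a rational point.
-/

open AlgebraicGeometry CategoryTheory

set_option autoImplicit false

namespace Pool.Agent.Helper14.PF

open WeierstrassCurve Finset Pool.Agent.Helper11.Cov Pool.Agent.Helper14.PS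

/-- `(P, z)` is a rational point of the cover
`z ^ m + ∑ j, h j * z ^ j + ∑ i, ((1 + g i ^ 2) * t i ^ d + ∑ l, q i l * t i ^ l) * z ^ i = 0`, `t i` rational. -/
def OnFamQ {n : ℕ} (a b : Fin n → ℤ) {m k d : ℕ} (h : Fin m → MvPolynomial (Fin n × Fin 3) ℤ)
    (q : Fin k → Fin d → MvPolynomial (Fin n × Fin 3) ℤ)
    (g : Fin k → MvPolynomial (Fin n × Fin 3) ℤ)
    (t : Fin k → ℚ) (P : ∀ i, (E (a i) (b i)).Point) (z : ℚ) : Prop :=
  z ^ m + ∑ j, MvPolynomial.aeval (fun p : Fin n × Fin 3 => coo p.2 (P p.1)) (h j) * z ^ (j : ℕ) +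
    ∑ i, ((1 + (MvPolynomial.aeval (fun p : Fin n × Fin 3 => coo p.2 (P p.1)) (g i)) ^ 2) *
      t i ^ d + ∑ l, MvPolynomial.aeval (fun p : Fin n × Fin 3 => coo p.2 (P p.1)) (q i l) *
        t i ^ (l : ℕ)) * z ^ (i : ℕ) = 0

section
variable {σ : Type} {m k d : ℕ}

/-- clearing denominators -/
noncomputable def hE (e s : ℕ) (h : Fin m → MvPolynomial σ ℤ) (j : Fin m) : MvPolynomial σ ℤ :=
  MvPolynomial.C ((e : ℤ) ^ (s * (m - j))) * h j

/-- clearing denominators -/
noncomputable def qE (m e s : ℕ) (q : Fin k → Fin d → MvPolynomial σ ℤ) (i : Fin k) (l : Fin d) :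
    MvPolynomial σ ℤ :=
  MvPolynomial.C ((e : ℤ) ^ (s * (m - i) - l)) * q i l

/-- clearing denominators -/
def cE (m d e s : ℕ) (i : Fin k) : ℤ := (e : ℤ) ^ (s * (m - i) - d)

theorem clear_gen {F : Type*} [Field F] {s : ℕ} (hkm : k ≤ m) (hs : ∀ i : Fin k, d ≤ s * (m - i))
    {e : ℕ} (he : (e : F) ≠ 0) (h : Fin m → MvPolynomial σ ℤ)
    (q : Fin k → Fin d → MvPolynomial σ ℤ) (g : Fin k → MvPolynomial σ ℤ) (A : Fin k → ℤ)
    (f : σ → F) (z : F) :
    ((e : F) ^ s * z) ^ m +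
      ∑ j, MvPolynomial.aeval f (hE e s h j) * ((e : F) ^ s * z) ^ (j : ℕ) +
      ∑ i, ((cE m d e s i : F) * (1 + (MvPolynomial.aeval f (g i)) ^ 2) * (A i : F) ^ d +
        ∑ l, MvPolynomial.aeval f (qE m e s q i l) * (A i : F) ^ (l : ℕ)) *
          ((e : F) ^ s * z) ^ (i : ℕ) =
    (e : F) ^ (s * m) * (z ^ m + ∑ j, MvPolynomial.aeval f (h j) * z ^ (j : ℕ) +
      ∑ i, ((1 + (MvPolynomial.aeval f (g i)) ^ 2) * ((A i : F) / e) ^ d +
        ∑ l, MvPolynomial.aeval f (q i l) * ((A i : F) / e) ^ (l : ℕ)) * z ^ (i : ℕ)) := by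
  rw [mul_add, mul_add, Finset.mul_sum, Finset.mul_sum]
  congr 1
  · congr 1
    · rw [mul_pow, ← pow_mul]
    · refine Finset.sum_congr rfl fun j _ => ?_
      unfold hE
      rw [map_mul, MvPolynomial.aeval_C, mul_pow, ← pow_mul]
      have e1 : s * m = s * (m - j) + s * j := by
        rw [← Nat.mul_add, Nat.sub_add_cancel j.2.le]
      rw [e1, pow_add]
      simp only [algebraMap_int_eq, eq_intCast, Int.cast_pow, Int.cast_natCast]
      ring
  · refine Finset.sum_congr rfl fun i _ => ?_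
    have hi : (i : ℕ) ≤ m := i.2.le.trans hkm
    have e1 : s * m = s * (m - i) + s * i := by
      rw [← Nat.mul_add, Nat.sub_add_cancel hi]
    have key : ∀ l : ℕ, l ≤ d → (e : F) ^ (s * m) * ((A i : F) / e) ^ l * z ^ (i : ℕ) =
        (e : F) ^ (s * (m - i) - l) * (A i : F) ^ l * ((e : F) ^ s * z) ^ (i : ℕ) := by
      intro l hl
      have e2 : s * (m - i) = (s * (m - i) - l) + l := by
        rw [Nat.sub_add_cancel (hl.trans (hs i))]
      rw [e1, pow_add, mul_pow, ← pow_mul, div_pow]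
      have e3 : (e : F) ^ (s * (m - i)) = (e : F) ^ (s * (m - i) - l) * (e : F) ^ l := by
        rw [← pow_add, ← e2]
      rw [e3]
      field_simp
    have k1 := key d le_rfl
    have k2 : ∑ l : Fin d, MvPolynomial.aeval f (qE m e s q i l) * (A i : F) ^ (l : ℕ) *
        ((e : F) ^ s * z) ^ (i : ℕ) = ∑ l : Fin d, (e : F) ^ (s * m) *
          (MvPolynomial.aeval f (q i l) * ((A i : F) / e) ^ (l : ℕ) * z ^ (i : ℕ)) := by
      refine Finset.sum_congr rfl fun l _ => ?_
      have k3 := key l l.2.le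
      unfold qE
      rw [map_mul, MvPolynomial.aeval_C]
      simp only [algebraMap_int_eq, eq_intCast, Int.cast_pow, Int.cast_natCast]
      linear_combination -(MvPolynomial.aeval f (q i l)) * k3
    rw [add_mul, Finset.sum_mul, k2]
    conv_rhs => rw [add_mul, mul_add, Finset.sum_mul, Finset.mul_sum]
    congr 1
    unfold cE
    push_cast
    linear_combination -(1 + (MvPolynomial.aeval f (g i)) ^ 2) * k1

end

/-- Clearing denominators. -/
theorem onFamQ_iff {n : ℕ} {a b : Fin n → ℤ} {m k d s : ℕ} (hkm : k ≤ m)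
    (hs : ∀ i : Fin k, d ≤ s * (m - i)) {e : ℕ} (he : 1 ≤ e)
    {h : Fin m → MvPolynomial (Fin n × Fin 3) ℤ}
    {q : Fin k → Fin d → MvPolynomial (Fin n × Fin 3) ℤ}
    {g : Fin k → MvPolynomial (Fin n × Fin 3) ℤ}
    {A : Fin k → ℤ} {P : ∀ i, (E (a i) (b i)).Point} {z : ℚ} :
    OnFamQ a b h q g (fun i => (A i : ℚ) / e) P z ↔
      OnFamC a b (cE m d e s) (hE e s h) (qE m e s q) g A P ((e : ℚ) ^ s * z) := by
  have he' : (e : ℚ) ≠ 0 := by
    have : e ≠ 0 := by omega
    exact_mod_cast this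
  unfold OnFamQ OnFamC
  rw [clear_gen hkm hs he']
  constructor
  · intro h0
    rw [h0, mul_zero]
  · intro h0
    exact (mul_eq_zero.mp h0).resolve_left (pow_ne_zero _ he')

/-- The exponent used in clearing denominators. -/
theorem exp_ok {m k d : ℕ} (hk : k = min (m - 1) 2) (hd : Odd d) (hmd : m = 2 ∨ d = 1)
    (i : Fin k) : d ≤ (d + 1) / 2 * (m - i) := by
  have hi := i.2
  rcases hmd with rfl | rfl
  · have h0 : (i : ℕ) = 0 := by omega
    rw [h0]
    obtain ⟨u, rfl⟩ := hd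
    omega
  · have h0 : 1 ≤ m - (i : ℕ) := by omega
    omega

/-- **Power saving for polynomial families, rational parameters.** -/
theorem famQ_power {n : ℕ} {a b : Fin n → ℤ} (hK : Key5 a b) {m k d : ℕ} (hm : 2 ≤ m)
    (hk : k = min (m - 1) 2) (hd : Odd d) (hmd : m = 2 ∨ d = 1) : ∃ N₀ : ℕ, ∀ N : ℕ, N₀ ≤ N →
      ∀ e : ℕ, 1 ≤ e → e ≤ N → ∀ (h : Fin m → MvPolynomial (Fin n × Fin 3) ℤ)
        (q : Fin k → Fin d → MvPolynomial (Fin n × Fin 3) ℤ)
        (g : Fin k → MvPolynomial (Fin n × Fin 3) ℤ)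
        (v : Fin k → ℤ), (Nat.card {A : Fin k → ℤ //
          (∃ P z, OnFamQ a b h q g (fun i => (A i : ℚ) / e) P z) ∧
          ∀ i, v i ≤ A i ∧ A i < v i + N} : ℝ) ≤ (N : ℝ) ^ ((k : ℝ) - 1 / 2000) := by
  obtain ⟨N₀, hN₀⟩ := famC_power hK hm hk hd hmd
  refine ⟨N₀, fun N hN e he heN h q g v => ?_⟩
  have he' : (e : ℚ) ≠ 0 := by
    have : e ≠ 0 := by omega
    exact_mod_cast this
  have h1 := hN₀ N hN e he heN (cE m d e ((d + 1) / 2)) (fun i r hr hdvd => by
      unfold cE at hdvd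
      have h2 := (Nat.prime_iff_prime_int.mp hr).dvd_of_dvd_pow hdvd
      exact_mod_cast h2) (hE e ((d + 1) / 2) h) (qE m e ((d + 1) / 2) q) g v
  have hiff : ∀ A : Fin k → ℤ, (∃ P z, OnFamQ a b h q g (fun i => (A i : ℚ) / e) P z) ↔
      ∃ P z, OnFamC a b (cE m d e ((d + 1) / 2)) (hE e ((d + 1) / 2) h)
        (qE m e ((d + 1) / 2) q) g A P z := by
    intro A
    constructor
    · rintro ⟨P, z, hz⟩
      exact ⟨P, _, (onFamQ_iff (by omega) (exp_ok hk hd hmd) he).mp hz⟩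
    · rintro ⟨P, z, hz⟩
      refine ⟨P, z / (e : ℚ) ^ ((d + 1) / 2), ?_⟩
      rw [onFamQ_iff (s := (d + 1) / 2) (by omega) (exp_ok hk hd hmd) he]
      have e1 : (e : ℚ) ^ ((d + 1) / 2) * (z / (e : ℚ) ^ ((d + 1) / 2)) = z := by
        field_simp
      rw [e1]
      exact hz
  have h3 : Nat.card {A : Fin k → ℤ // (∃ P z, OnFamQ a b h q g (fun i => (A i : ℚ) / e) P z) ∧
      ∀ i, v i ≤ A i ∧ A i < v i + N} = Nat.card {A : Fin k → ℤ //
      (∃ P z, OnFamC a b (cE m d e ((d + 1) / 2)) (hE e ((d + 1) / 2) h)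
        (qE m e ((d + 1) / 2) q) g A P z) ∧ ∀ i, v i ≤ A i ∧ A i < v i + N} :=
    Nat.card_congr (Equiv.subtypeEquivRight fun A => and_congr_left fun _ => hiff A)
  rw [h3]
  exact h1

/-- If a variety dominating the cover has dense rational points, the cover has a rational point. -/
theorem exists_onFamQ {n : ℕ} {a b : Fin n → ℤ} (hg : ∀ i, Good (a i) (b i)) {m k d : ℕ}
    (hk : k = min (m - 1) 2) (hd : Odd d) (hmd : m = 2 ∨ d = 1)
    {h : Fin m → MvPolynomial (Fin n × Fin 3) ℤ}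
    {q : Fin k → Fin d → MvPolynomial (Fin n × Fin 3) ℤ}
    {g : Fin k → MvPolynomial (Fin n × Fin 3) ℤ} {t : Fin k → ℚ} {V : Scheme.{0}} [IsIntegral V]
    (f : V ⟶ Spec (CommRingCat.of ℚ)) (x y : Fin n → V.functionField) (z : V.functionField)
    (hxy : ∀ i, y i ^ 2 = x i ^ 3 + (a i : V.functionField) * x i + (b i : V.functionField))
    (hz : z ^ m + ∑ j, MvPolynomial.aeval (fun p : Fin n × Fin 3 =>
      ![1, x p.1, y p.1] p.2 / (1 + x p.1 ^ 2)) (h j) * z ^ (j : ℕ) +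
      ∑ i, ((1 + (MvPolynomial.aeval (fun p : Fin n × Fin 3 =>
        ![1, x p.1, y p.1] p.2 / (1 + x p.1 ^ 2)) (g i)) ^ 2) * (t i : V.functionField) ^ d +
        ∑ l, MvPolynomial.aeval (fun p : Fin n × Fin 3 =>
          ![1, x p.1, y p.1] p.2 / (1 + x p.1 ^ 2)) (q i l) * (t i : V.functionField) ^ (l : ℕ)) *
        z ^ (i : ℕ) = 0)
    (hdense : Dense (Pool.Agent.Helper11.rationalPoints f)) : ∃ P z, OnFamQ a b h q g t P z := by
  classical
  -- characteristic zero
  have hchar : CharZero V.functionField := by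
    obtain ⟨R, _, ι, v, φ, hinj, hv⟩ := exists_specialisation_fintype f
      (α := Fin 0) (fun o => o.elim0) hdense
    apply charZero_of_inj_zero
    intro j hj
    have e1 : (j : R) = 0 := by
      apply hinj
      rw [map_natCast, map_zero]
      exact hj
    have e2 := congrArg φ e1
    rw [map_natCast, map_zero] at e2
    exact_mod_cast e2
  -- a common denominator
  set e : ℕ := ∏ i, (t i).den with he
  have he1 : 1 ≤ e := Nat.succ_le_of_lt (Finset.prod_pos fun i _ => (t i).den_pos)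
  have hA : ∀ i, ∃ A : ℤ, t i = (A : ℚ) / e := by
    intro i
    have h1 : (t i).den ∣ e := Finset.dvd_prod_of_mem (fun i => (t i).den) (Finset.mem_univ i)
    obtain ⟨w, hw⟩ := h1
    have hd0 : ((t i).den : ℚ) ≠ 0 := by exact_mod_cast (t i).den_ne_zero
    have hw0 : (w : ℚ) ≠ 0 := by
      intro h0
      have : w = 0 := by exact_mod_cast h0
      rw [this, mul_zero] at hw
      omega
    refine ⟨(t i).num * w, ?_⟩
    rw [hw]
    push_cast
    rw [mul_div_mul_right _ _ hw0]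
    exact (Rat.num_div_den (t i)).symm
  choose A hA using hA
  have ht : t = fun i => (A i : ℚ) / e := funext hA
  have he' : (e : V.functionField) ≠ 0 := by
    have : e ≠ 0 := by omega
    exact_mod_cast this
  have heQ : (e : ℚ) ≠ 0 := by
    have : e ≠ 0 := by omega
    exact_mod_cast this
  have hkm : k ≤ m := by omega
  have hcl := clear_gen (s := (d + 1) / 2) hkm (exp_ok hk hd hmd) he' h q g A
    (fun p : Fin n × Fin 3 => ![1, x p.1, y p.1] p.2 / (1 + x p.1 ^ 2)) z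
  have hcast : ∀ i, (t i : V.functionField) = (A i : V.functionField) / e := by
    intro i
    rw [hA i]
    push_cast
    rfl
  simp only [hcast] at hz
  rw [hz, mul_zero] at hcl
  obtain ⟨P, z', hP⟩ := exists_onPencil hg
    (h := absW (hE e ((d + 1) / 2) h) (wtC (cE m d e ((d + 1) / 2)) (qE m e ((d + 1) / 2) q) g A))
    (t := (Fin.elim0 : Fin 0 → ℤ)) f x y ((e : V.functionField) ^ ((d + 1) / 2) * z) hxy (by
      rw [sum_absW hkm, Finset.univ_eq_empty (α := Fin 0), Finset.sum_empty, add_zero,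
        ← add_assoc]
      simp only [aeval_wtC]
      exact hcl) hdense
  rw [← onFamC_iff hkm] at hP
  refine ⟨P, z' / (e : ℚ) ^ ((d + 1) / 2), ?_⟩
  rw [ht, onFamQ_iff (s := (d + 1) / 2) hkm (exp_ok hk hd hmd) he1]
  have e1 : (e : ℚ) ^ ((d + 1) / 2) * (z' / (e : ℚ) ^ ((d + 1) / 2)) = z' := by
    field_simp
  rw [e1]
  exact hP

end Pool.Agent.Helper14.PF
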