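import Pool.Agent.Helper14.PF.Deriv

/-!
# PF-Lin: linear algebra

PROOF.  The linear map from `Fin 2 × Fin J × Fin K → F` (the coefficients of the `R j` and `S j`) to
`Fin l × Fin (K + l d + J) → F` given by the coefficients of `∑ j, (it f c k (R j) + it f c' k (S j)) X ^ j` has a
nontrivial kernel (`LinearMap.ker_ne_bot_of_finrank_lt`); all coefficients of higher index vanish by
`natDegree_it`.
-/

set_option autoImplicit false

namespace Pool.Agent.Helper14.PF

open Polynomial Finset

theorem exists_sol {F : Type*} [Field F] {f : F[X]} {d : ℕ} (hf : f.natDegree ≤ d) (c c' : F)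
    {l J K : ℕ} (h : l * (K + l * d + J) < 2 * (J * K)) :
    ∃ R S : Fin J → F[X], (∀ j, (R j).natDegree < K) ∧ (∀ j, (S j).natDegree < K) ∧
      ((∃ j, R j ≠ 0) ∨ ∃ j, S j ≠ 0) ∧
      ∀ k < l, ∑ j, (it f c k (R j) + it f c' k (S j)) * X ^ (j : ℕ) = 0 := by
  classical
  have hJK : 0 < J * K := by omega
  have hK : 0 < K := Nat.pos_of_mul_pos_left hJK
  let P : Fin 2 → Fin J → ((Fin 2 × Fin J × Fin K → F) →ₗ[F] F[X]) := fun a j =>
    ∑ i : Fin K, (monomial (i : ℕ)).comp (LinearMap.proj (a, j, i))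
  have hP : ∀ a j u, P a j u = ∑ i : Fin K, monomial (i : ℕ) (u (a, j, i)) := by
    intro a j u
    simp only [P, LinearMap.sum_apply, LinearMap.comp_apply, LinearMap.proj_apply]
  have hdeg : ∀ a j u, (P a j u).natDegree ≤ K - 1 := by
    intro a j u
    rw [hP]
    refine natDegree_sum_le_of_forall_le _ _ fun i _ => ?_
    exact (natDegree_monomial_le _).trans (by have := i.2; omega)
  have hcoef : ∀ a j u (i : Fin K), (P a j u).coeff i = u (a, j, i) := by
    intro a j u i
    rw [hP, finsetSum_coeff, Finset.sum_eq_single i]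
    · rw [coeff_monomial, if_pos rfl]
    · intro i' _ hi'
      rw [coeff_monomial, if_neg fun h => hi' (Fin.ext h)]
    · intro h
      exact absurd (Finset.mem_univ i) h
  let E : ℕ → ((Fin 2 × Fin J × Fin K → F) →ₗ[F] F[X]) := fun k =>
    ∑ j : Fin J, LinearMap.mulRight F (X ^ (j : ℕ)) ∘ₗ (it f c k ∘ₗ P 0 j + it f c' k ∘ₗ P 1 j)
  have hE : ∀ k u, E k u = ∑ j, (it f c k (P 0 j u) + it f c' k (P 1 j u)) * X ^ (j : ℕ) := by
    intro k u
    simp only [E, LinearMap.sum_apply, LinearMap.comp_apply, LinearMap.add_apply,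
      LinearMap.mulRight_apply]
  let Φ : (Fin 2 × Fin J × Fin K → F) →ₗ[F] (Fin l × Fin (K + l * d + J) → F) :=
    LinearMap.pi fun q => (lcoeff F (q.2 : ℕ)) ∘ₗ E q.1
  have hker : LinearMap.ker Φ ≠ ⊥ := by
    refine LinearMap.ker_ne_bot_of_finrank_lt ?_
    rw [Module.finrank_fintype_fun_eq_card, Module.finrank_fintype_fun_eq_card]
    simp only [Fintype.card_prod, Fintype.card_fin]
    exact h
  obtain ⟨u, hu, hu0⟩ := Submodule.exists_mem_ne_zero_of_ne_bot hker
  rw [LinearMap.mem_ker] at hu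
  refine ⟨fun j => P 0 j u, fun j => P 1 j u, fun j => ?_, fun j => ?_, ?_, fun k hk => ?_⟩
  · exact lt_of_le_of_lt (hdeg 0 j u) (by omega)
  · exact lt_of_le_of_lt (hdeg 1 j u) (by omega)
  · obtain ⟨⟨a, j, i⟩, hq⟩ := Function.ne_iff.1 hu0
    have hne : P a j u ≠ 0 := by
      intro h0
      have h1 := hcoef a j u i
      rw [h0, coeff_zero] at h1
      exact hq h1.symm
    fin_cases a
    · exact Or.inl ⟨j, hne⟩
    · exact Or.inr ⟨j, hne⟩
  · rw [← hE]
    ext n
    rw [coeff_zero]
    by_cases hn : n < K + l * d + J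
    · exact congrFun hu (⟨k, hk⟩, ⟨n, hn⟩)
    · refine coeff_eq_zero_of_natDegree_lt (lt_of_lt_of_le ?_ (not_lt.1 hn))
      have hkd : k * d ≤ l * d := Nat.mul_le_mul_right d hk.le
      have h1 : (E k u).natDegree ≤ K - 1 + k * d + (J - 1) := by
        rw [hE]
        refine natDegree_sum_le_of_forall_le _ _ fun j _ => ?_
        refine natDegree_mul_le.trans ?_
        rw [natDegree_X_pow]
        have h2 : (it f c k (P 0 j u) + it f c' k (P 1 j u)).natDegree ≤ K - 1 + k * d :=
          (natDegree_add_le _ _).trans (max_le (natDegree_it hf c k (hdeg 0 j u))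
            (natDegree_it hf c' k (hdeg 1 j u)))
        have := j.2
        omega
      omega

end Pool.Agent.Helper14.PF
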